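import Pool.Agent.Helper7.OV.Goals1

/-!
# Project OV, packet INV
-/

set_option autoImplicit false

open Finset

namespace Pool.Agent.Helper63.OV.INV

open Pool.Agent.Helper7.OV
open scoped Polynomial

/-- all exponents have weight at most `c` -/
def Wl (s t c : ℕ) (F : P2) : Prop := ∀ i j : ℕ, co F i j ≠ 0 → t * i + s * j ≤ c

theorem Wl.mul {s t c c' : ℕ} {F G : P2} (hF : Wl s t c F) (hG : Wl s t c' G) : Wl s t (c + c') (F * G) := by
  intro i j h
  unfold co at h
  rw [Polynomial.coeff_mul, Polynomial.finsetSum_coeff] at h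
  obtain ⟨x, hx, hx'⟩ := Finset.exists_ne_zero_of_sum_ne_zero h
  rw [Polynomial.coeff_mul] at hx'
  obtain ⟨y, hy, hy'⟩ := Finset.exists_ne_zero_of_sum_ne_zero hx'
  have h1 := hF y.1 x.1 (left_ne_zero_of_mul hy')
  have h2 := hG y.2 x.2 (right_ne_zero_of_mul hy')
  rw [HasAntidiagonal.mem_antidiagonal] at hx hy
  rw [← hx, ← hy]
  nlinarith

theorem Wl.add {s t c : ℕ} {F G : P2} (hF : Wl s t c F) (hG : Wl s t c G) : Wl s t c (F + G) := by
  intro i j h
  unfold co at h
  rw [Polynomial.coeff_add, Polynomial.coeff_add] at h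
  by_cases h1 : (F.coeff j).coeff i = 0
  · rw [h1, zero_add] at h
    exact hG i j h
  · exact hF i j h1

theorem Wl.neg {s t c : ℕ} {F : P2} (hF : Wl s t c F) : Wl s t c (-F) := by
  intro i j h
  unfold co at h
  rw [Polynomial.coeff_neg, Polynomial.coeff_neg, neg_ne_zero] at h
  exact hF i j h

theorem Wl.sub {s t c : ℕ} {F G : P2} (hF : Wl s t c F) (hG : Wl s t c G) : Wl s t c (F - G) := by
  rw [sub_eq_add_neg]
  exact hF.add hG.neg

theorem Wl.mono {s t c c' : ℕ} {F : P2} (hF : Wl s t c F) (h : c ≤ c') : Wl s t c' F :=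
  fun i j hi => (hF i j hi).trans h

theorem Wl.zero (s t c : ℕ) : Wl s t c 0 := by
  intro i j h
  simp [co] at h

theorem Wl.int (s t : ℕ) (n : ℤ) : Wl s t 0 (Polynomial.C (Polynomial.C n)) := by
  intro i j h
  unfold co at h
  rw [Polynomial.coeff_C] at h
  by_cases hj : j = 0
  · rw [if_pos hj, Polynomial.coeff_C] at h
    by_cases hi : i = 0
    · simp [hi, hj]
    · rw [if_neg hi] at h
      exact absurd rfl h
  · rw [if_neg hj, Polynomial.coeff_zero] at h
    exact absurd rfl h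

theorem Wl.one (s t : ℕ) : Wl s t 0 1 := by
  have := Wl.int s t 1
  simpa using this

theorem Wl.two (s t : ℕ) : Wl s t 0 2 := by
  have h := (Wl.one s t).add (Wl.one s t)
  rwa [one_add_one_eq_two] at h

theorem Wl.X (s t : ℕ) : Wl s t t XX := by
  intro i j h
  unfold co XX at h
  rw [Polynomial.coeff_C] at h
  by_cases hj : j = 0
  · rw [if_pos hj, Polynomial.coeff_X] at h
    by_cases hi : 1 = i
    · simp [← hi, hj]
    · rw [if_neg hi] at h
      exact absurd rfl h
  · rw [if_neg hj, Polynomial.coeff_zero] at h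
    exact absurd rfl h

theorem Wl.Y (s t : ℕ) : Wl s t s YY := by
  intro i j h
  unfold co YY at h
  rw [Polynomial.coeff_X] at h
  by_cases hj : 1 = j
  · rw [if_pos hj, Polynomial.coeff_one] at h
    by_cases hi : i = 0
    · simp [hi, ← hj]
    · rw [if_neg hi] at h
      exact absurd rfl h
  · rw [if_neg hj, Polynomial.coeff_zero] at h
    exact absurd rfl h

theorem wEE {s t : ℕ} (h : t ≤ s) : Wl s t (t + 2 * s) EE := by
  have h1 : Wl s t t (1 - XX) := ((Wl.one s t).mono (Nat.zero_le _)).sub (Wl.X s t)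
  have h2 : Wl s t s (1 - YY) := ((Wl.one s t).mono (Nat.zero_le _)).sub (Wl.Y s t)
  have h3 : Wl s t s (XX - YY) := ((Wl.X s t).mono h).sub (Wl.Y s t)
  exact ((((Wl.two s t).mul h1).mul h2).mul h3).mono (by omega)

theorem wth1 {s t : ℕ} (h : t ≤ s) (i : Fin 3) : Wl s t (t + 2 * s) (th1 i) := by
  have h1 : Wl s t t (1 - XX) := ((Wl.one s t).mono (Nat.zero_le _)).sub (Wl.X s t)
  have h2 : Wl s t s (1 - YY) := ((Wl.one s t).mono (Nat.zero_le _)).sub (Wl.Y s t)
  fin_cases i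
  · exact Wl.zero _ _ _
  · exact (((Wl.Y s t).mul h1).mul h2).mono (by omega)
  · show Wl s t (t + 2 * s) (XX * (1 - YY) ^ 2)
    rw [pow_two]
    exact ((Wl.X s t).mul (h2.mul h2)).mono (by omega)

theorem wth2 {s t : ℕ} (h : t ≤ s) (i : Fin 3) : Wl s t (t + 2 * s) (th2 i) := by
  have h1 : Wl s t t (1 - XX) := ((Wl.one s t).mono (Nat.zero_le _)).sub (Wl.X s t)
  have h2 : Wl s t s (1 - YY) := ((Wl.one s t).mono (Nat.zero_le _)).sub (Wl.Y s t)
  fin_cases i
  · exact Wl.zero _ _ _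
  · show Wl s t (t + 2 * s) (-(YY * (1 - XX) ^ 2))
    rw [pow_two]
    exact (((Wl.Y s t).mul (h1.mul h1)).mono (by omega)).neg
  · exact ((((Wl.X s t).mul h1).mul h2).mono (by omega)).neg

theorem Cadd {u v T : ℤ} {m m' : Ser} (h : Cond u v T m) (h' : Cond u v T m') : Cond u v T (m + m') := by
  intro k l hk
  show m k l + m' k l = 0
  rw [h k l hk, h' k l hk, add_zero]

theorem key (hA : S_ACT) (hW : S_WT) (s t : ℕ) (d S : ℤ) (a : T3) (hG : Good s t d S a)
    (dd : Ser → Ser) (DD : P2 → P2) (th : T3) (h0 : th 0 = 0)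
    (dadd : ∀ m m' : Ser, dd (m + m') = dd m + dd m')
    (dsm : ∀ (c : ℚ) (m : Ser), dd (c • m) = c • dd m)
    (dact : ∀ (F : P2) (m : Ser), dd (act F m) = act (DD F) m + act F (dd m))
    (dcf : ∀ F : P2, dd (cf F) = cf (DD F))
    (hq : act EE (dd fq) = act (th 1) fq) (hp : act EE (dd fp) = act (th 2) fp)
    (hi : act EE (dd fi) = act (th 1 - th 2) fi)
    (hC : ∀ (u v T : ℤ) (m : Ser), Cond u v T m → Cond u v T (dd m))
    (hwE : Wl s t (t + 2 * s) EE) (hwt : ∀ i, Wl s t (t + 2 * s) (th i)) :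
    Good s t d (S + t + 2 * s) (fun i => EE * DD (a i) + th i * a i) := by
  obtain ⟨hadF, hadm, hsmu, -, hmul, hacf, -, hcfa, -, -, -, -⟩ := hA
  have addF : ∀ (F G : P2) (m : Ser), act (F + G) m = act F m + act G m := hadF
  have addm : ∀ (F : P2) (m m' : Ser), act F (m + m') = act F m + act F m' := hadm
  have smul : ∀ (F : P2) (c : ℚ) (m : Ser), act F (c • m) = c • act F m := hsmu
  have cfa : ∀ F G : P2, cf (F + G) = cf F + cf G := fun F G => funext fun k => funext fun l => hcfa F G k l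
  have L2 : ∀ (B G : P2) (f : Ser), act EE (dd f) = act G f →
      act EE (dd (act B f)) = act (EE * DD B + G * B) f := by
    intro B G f h
    rw [dact, addm, addF, hmul, ← hmul EE B, mul_comm EE B, hmul B EE, h, ← hmul B G, mul_comm B G]
  have L3 : ∀ A : P2, act EE (dd (cf A)) = cf (EE * DD A) := by
    intro A
    rw [dcf, hacf]
  have W0 : ∀ (u v T : ℤ) (F : P2) (m : Ser), 0 ≤ u → 0 ≤ v → Cond u v T m → Cond u v T (act F m) := by
    intro u v T F m hu hv h
    have := hW u v T 0 F m (fun i j _ => by positivity) h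
    rwa [add_zero] at this
  have W1 : ∀ (T : ℤ) (F : P2) (m : Ser), Wl s t (t + 2 * s) F → Cond (-t) (-s) T m →
      Cond (-t) (-s) (T + -(t + 2 * s)) (act F m) := by
    intro T F m hF h
    refine hW (-t) (-s) T (-(t + 2 * s)) F m (fun i j hij => ?_) h
    have h1 := hF i j hij
    have h2 : (t : ℤ) * i + s * j ≤ t + 2 * s := by exact_mod_cast h1
    linarith
  have E1 : ∀ i, cf (EE * DD (a i) + th i * a i) = act EE (dd (cf (a i))) + act (th i) (cf (a i)) := by
    intro i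
    rw [cfa, L3, hacf]
  have C0 : ∀ (u v T : ℤ) (i : Fin 3), 0 ≤ u → 0 ≤ v → Cond u v T (cf (a i)) →
      Cond u v T (cf (EE * DD (a i) + th i * a i)) := by
    intro u v T i hu hv h
    rw [E1]
    exact Cadd (W0 u v T _ _ hu hv (hC _ _ _ _ h)) (W0 u v T _ _ hu hv h)
  have C1 : ∀ (T : ℤ) (i : Fin 3), Cond (-t) (-s) T (cf (a i)) →
      Cond (-t) (-s) (T + -(t + 2 * s)) (cf (EE * DD (a i) + th i * a i)) := by
    intro T i h
    rw [E1]
    exact Cadd (W1 T _ _ hwE (hC _ _ _ _ h)) (W1 T _ _ (hwt i) h)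
  constructor
  · have e : cf (EE * DD (a 0) + th 0 * a 0) + act (EE * DD (a 1) + th 1 * a 1) fq =
        act EE (dd (cf (a 0) + act (a 1) fq)) := by
      rw [h0, zero_mul, add_zero, dadd, addm, L3, L2 _ _ _ hq]
    show Cond 0 1 (2 * t) (cf (EE * DD (a 0) + th 0 * a 0) + act (EE * DD (a 1) + th 1 * a 1) fq)
    rw [e]
    exact W0 _ _ _ _ _ le_rfl zero_le_one (hC _ _ _ _ hG.c1)
  · exact C0 0 1 t 2 le_rfl zero_le_one hG.c2
  · have e : cf (EE * DD (a 0) + th 0 * a 0) + act (EE * DD (a 2) + th 2 * a 2) fp =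
        act EE (dd (cf (a 0) + act (a 2) fp)) := by
      rw [h0, zero_mul, add_zero, dadd, addm, L3, L2 _ _ _ hp]
    show Cond 1 0 (2 * t) (cf (EE * DD (a 0) + th 0 * a 0) + act (EE * DD (a 2) + th 2 * a 2) fp)
    rw [e]
    exact W0 _ _ _ _ _ zero_le_one le_rfl (hC _ _ _ _ hG.c3)
  · exact C0 1 0 (2 * t - s) 1 zero_le_one le_rfl hG.c4
  · have := C1 _ 0 hG.c5
    rwa [show -S + -((t : ℤ) + 2 * s) = -(S + t + 2 * s) by ring] at this
  · have e : cf (EE * DD (a 2) + th 2 * a 2) + (d : ℚ) • act (EE * DD (a 1) + th 1 * a 1) fi =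
        act EE (dd (cf (a 2) + (d : ℚ) • act (a 1) fi)) + act (th 2) (cf (a 2) + (d : ℚ) • act (a 1) fi) := by
      rw [dadd, addm, addm, dsm, smul, smul, L3, L2 _ _ _ hi, hacf, cfa, ← hmul,
        show EE * DD (a 1) + th 1 * a 1 = EE * DD (a 1) + (th 1 - th 2) * a 1 + th 2 * a 1 by ring,
        addF (EE * DD (a 1) + (th 1 - th 2) * a 1), smul_add]
      abel
    have h := Cadd (W1 _ _ _ hwE (hC _ _ _ _ hG.c6)) (W1 _ _ _ (hwt 2) hG.c6)
    rw [show -(S - (s : ℤ) * t) + -((t : ℤ) + 2 * s) = -(S + t + 2 * s - s * t) by ring] at h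
    show Cond (-t) (-s) (-(S + t + 2 * s - s * t))
      (cf (EE * DD (a 2) + th 2 * a 2) + (d : ℚ) • act (EE * DD (a 1) + th 1 * a 1) fi)
    rw [e]
    exact h
  · have := C1 _ 1 hG.c7
    rwa [show -(S + (s : ℤ) * t) + -((t : ℤ) + 2 * s) = -(S + t + 2 * s + s * t) by ring] at this

theorem t : S_INV := by
  intro hA hW _ hO s t d S a hts hG
  have hA' := hA
  obtain ⟨-, -, -, -, -, -, -, -, hd1, hd2, hdc, -⟩ := hA'
  obtain ⟨o1, o2, o3, o4, o5, o6⟩ := hO
  constructor
  · refine key hA hW s t d S a hG d1 D1 th1 rfl ?_ ?_ hd1 (fun F => (hdc F).1) o1 o3 o5 ?_ (wEE hts) (wth1 hts)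
    · intro m m'
      funext k l
      show (k : ℚ) * (m k l + m' k l) = k * m k l + k * m' k l
      ring
    · intro c m
      funext k l
      show (k : ℚ) * (c * m k l) = c * (k * m k l)
      ring
    · intro u v T m h k l hk
      show (k : ℚ) * m k l = 0
      rw [h k l hk, mul_zero]
  · refine key hA hW s t d S a hG d2 D2 th2 rfl ?_ ?_ hd2 (fun F => (hdc F).2) o2 o4 o6 ?_ (wEE hts) (wth2 hts)
    · intro m m'
      funext k l
      show (l : ℚ) * (m k l + m' k l) = l * m k l + l * m' k l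
      ring
    · intro c m
      funext k l
      show (l : ℚ) * (c * m k l) = c * (l * m k l)
      ring
    · intro u v T m h k l hk
      show (l : ℚ) * m k l = 0
      rw [h k l hk, mul_zero]

end Pool.Agent.Helper63.OV.INV
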